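import Mathlib
import Pool.Agent.V8H60.Squeeze.Geometry

/-!
# Squeezing function limits at weakly pseudoconvex points of finite type

For every `n ≥ 2` let `D` be the bounded convex domain
`(Re z₁)⁴ + (Im z₁)⁴ + |z₂ - 1|² + |z₃|² + ... + |z_n|² < 1` of `ℂⁿ`. Its boundary is smooth, Levi
pseudoconvex and of finite type (at most `4`) at every point, and it is not strongly pseudoconvex
at the boundary point `p = 0`, where the Levi form has exactly `n - 2` positive eigenvalues. The
boundary points `q_t = (t (1 + i), 1 - √(1 - 2 t⁴), 0, ..., 0)` are strongly pseudoconvex and tend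
to `p`; the pure second derivatives `∂²/∂z²` of the defining function vanish there, so an affine
change of coordinates makes `D` close to a Siegel domain at small scales and comparable with one
globally. A Cayley transform gives `s_D(z) → 1` as `z → q_t` along the normal, and a diagonal
sequence tends to `p`.
-/

namespace Pool.Agent.Results.MP_63facb_an.WeakPointLimit

open Metric Set Filter Topology Pool.Agent.V8H60.Squeeze

variable {m : ℕ}

/-- the subspace `z₁ = z₂ = 0` (coordinates `0` and `1` in Lean) -/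
noncomputable def tailSub (m : ℕ) : Submodule ℂ (E (m + 2)) :=
  LinearMap.ker (LinearMap.pi ![(EuclideanSpace.proj (𝕜 := ℂ) (0 : Fin (m + 2)) :
    E (m + 2) →L[ℂ] ℂ).toLinearMap, (EuclideanSpace.proj (𝕜 := ℂ) (1 : Fin (m + 2)) :
    E (m + 2) →L[ℂ] ℂ).toLinearMap] : E (m + 2) →ₗ[ℂ] (Fin 2 → ℂ))

lemma mem_tailSub {v : E (m + 2)} (hv : v ∈ tailSub m) : v 0 = 0 ∧ v 1 = 0 := by
  unfold tailSub at hv
  rw [LinearMap.mem_ker] at hv
  constructor
  · have := congrFun hv 0
    simpa using this
  · have := congrFun hv 1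
    simpa using this

lemma finrank_tailSub : m ≤ Module.finrank ℂ (tailSub m) := by
  set f : E (m + 2) →ₗ[ℂ] (Fin 2 → ℂ) :=
    LinearMap.pi ![(EuclideanSpace.proj (𝕜 := ℂ) (0 : Fin (m + 2)) :
    E (m + 2) →L[ℂ] ℂ).toLinearMap, (EuclideanSpace.proj (𝕜 := ℂ) (1 : Fin (m + 2)) :
    E (m + 2) →L[ℂ] ℂ).toLinearMap] with hf
  have h1 := LinearMap.finrank_range_add_finrank_ker f
  have h2 : Module.finrank ℂ (LinearMap.range f) ≤ 2 := by
    have := Submodule.finrank_le (LinearMap.range f)
    simpa using this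
  have h3 : Module.finrank ℂ (E (m + 2)) = m + 2 := by simp
  have h4 : tailSub m = LinearMap.ker f := rfl
  rw [h4]
  omega

lemma cTangent_zero {v : E (m + 2)} (hv : v 1 = 0) : CTangent rho 0 v := by
  constructor
  · rw [fderiv_rho]
    unfold lin
    simp [hv]
  · rw [fderiv_rho]
    unfold lin
    simp [hv]

lemma levi_zero (v : E (m + 2)) : levi rho 0 v = ‖v 1‖ ^ 2 + ss v := by
  rw [levi_rho]
  simp

lemma positive (m : ℕ) : PositiveEigenvaluesGE (rho : E (m + 2) → ℝ) 0 m := by
  refine ⟨tailSub m, finrank_tailSub, fun v hv => cTangent_zero (mem_tailSub hv).2, ?_⟩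
  intro v hv hv0
  obtain ⟨h0, h1⟩ := mem_tailSub hv
  rw [levi_zero]
  have h2 := norm_sq_eq3 v
  rw [h0, h1, norm_zero] at h2
  have h3 : 0 < ‖v‖ := norm_pos_iff.2 hv0
  rw [h1, norm_zero]
  nlinarith

lemma not_strong (m : ℕ) : ¬ StronglyPseudoconvexAt (rho : E (m + 2) → ℝ) 0 := by
  intro h
  have h0 : (ev 0 : E (m + 2)) 0 = 1 := ev_apply_self 0
  have h1 : (ev 0 : E (m + 2)) 1 = 0 := ev_apply_ne (by simp)
  have h2 : ∀ i : Fin m, (ev 0 : E (m + 2)) i.succ.succ = 0 := by
    intro i
    apply ev_apply_ne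
    exact Fin.succ_ne_zero _
  have hne : (ev 0 : E (m + 2)) ≠ 0 := by
    intro h
    have := congrArg (fun v : E (m + 2) => v 0) h
    simp only [h0] at this
    simp at this
  have h3 := h (ev 0) (cTangent_zero h1) hne
  rw [levi_zero, h1] at h3
  have h4 : ss (ev 0 : E (m + 2)) = 0 := by
    unfold ss
    apply Finset.sum_eq_zero
    intro i _
    rw [h2 i]; simp
  rw [h4] at h3
  simp at h3

lemma levi_nonneg (m : ℕ) : LeviPseudoconvexOn univ (rho : E (m + 2) → ℝ) := by
  intro q _ _ v _
  rw [levi_rho]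
  have := ss_nonneg v
  positivity

lemma smoothBoundary (m : ℕ) :
    IsSmoothBoundary (Dom m) 0 univ (rho : E (m + 2) → ℝ) where
  isOpen := isOpen_univ
  mem := mem_univ _
  mem_frontier := by rw [frontier_Dom]; exact rho_zero
  smooth := contDiff_rho.contDiffOn
  inter_eq := by
    rw [inter_univ]
    ext z
    simp [Dom]
  frontier_eq := by
    rw [inter_univ, frontier_Dom]
    ext z
    simp
  fderiv_ne z _ hz := fderiv_rho_ne z hz

/-- **Affirmative answer to the question, in every dimension and for all three kinds of admissible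
pairs.** For every `n ≥ 2` there are a bounded (convex) domain `D ⊂ ℂⁿ` and a boundary point `p`,
with a defining function `ρ` smooth near `p`, such that `(D, p)` satisfies (B) and (C), and (A) if
`n = 2`, the boundary of `D` is not strongly pseudoconvex at `p`, and the squeezing function of `D`
tends to `1` along a sequence in `D` which tends to `p`. -/
theorem result : ∀ n : ℕ, 2 ≤ n →
    ∃ (D : Set (E n)) (p : E n) (U : Set (E n)) (ρ : E n → ℝ),
      IsOpen D ∧ IsConnected D ∧ Bornology.IsBounded D ∧ IsSmoothBoundary D p U ρ ∧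
      (n = 2 → CondA U ρ p) ∧ CondB U ρ p ∧ CondC D U ρ ∧
      ¬ StronglyPseudoconvexAt ρ p ∧
      ∃ z : ℕ → E n, (∀ k, z k ∈ D) ∧ Tendsto z atTop (𝓝 p) ∧
        Tendsto (fun k => squeezing D (z k)) atTop (𝓝 1) := by
  intro n hn
  obtain ⟨m, rfl⟩ : ∃ m, n = m + 2 := ⟨n - 2, by omega⟩
  refine ⟨Dom m, 0, univ, rho, isOpen_Dom m, connected_Dom m, bounded_Dom m, smoothBoundary m,
    ?_, ?_, ?_, not_strong m, exists_sequence m⟩
  · intro h2
    exact ⟨h2, levi_nonneg m, finiteType 0 rho_zero⟩
  · exact ⟨by omega, levi_nonneg m, fun q _ hq => finiteType q hq, by simpa using positive m⟩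
  · exact ⟨by omega, convex_Dom m, fun q _ hq => finiteType q hq⟩

end Pool.Agent.Results.MP_63facb_an.WeakPointLimit
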